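import Pool.Agent.helper62.QU.CA1

/-! Row `qu:DXI`. -/

open scoped MatrixGroups ContDiff Topology UpperHalfPlane
open UpperHalfPlane MeasureTheory Filter Set

namespace Pool.Agent.QU

section
variable {E : Type} [NormedAddCommGroup E] [NormedSpace ℝ E]

/-- extension by zero -/
noncomputable def DXI_F (φ : ℍ → E) (h : ℂ → ℝ) : ℂ → E :=
  CA1_U.indicator (fun w => h w • onC φ w)

theorem DXI_zero (φ : ℍ → E) (h : ℂ → ℝ) {w : ℂ} (hw : w ∉ UpperHalfPlane.coe '' tsupport φ) :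
    DXI_F φ h w = 0 := by
  unfold DXI_F
  by_cases hU : w ∈ CA1_U
  · rw [Set.indicator_of_mem hU]
    have : φ (ofComplex w) = 0 := by
      by_contra hne
      exact hw ⟨ofComplex w, subset_tsupport _ hne, CA1_coe hU⟩
    show h w • φ (ofComplex w) = 0
    rw [this, smul_zero]
  · rw [Set.indicator_of_notMem hU]

theorem DXI_K {φ : ℍ → E} (hc : HasCompactSupport φ) :
    IsCompact (UpperHalfPlane.coe '' tsupport φ) :=
  hc.isCompact.image UpperHalfPlane.continuous_coe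

theorem DXI_KU (φ : ℍ → E) : UpperHalfPlane.coe '' tsupport φ ⊆ CA1_U := by
  rintro _ ⟨z, _, rfl⟩
  exact CA1_mem z

theorem DXI_near {φ : ℍ → E} (hc : HasCompactSupport φ) (h : ℂ → ℝ) {w : ℂ}
    (hw : w ∉ UpperHalfPlane.coe '' tsupport φ) : DXI_F φ h =ᶠ[𝓝 w] 0 := by
  filter_upwards [(DXI_K hc).isClosed.isOpen_compl.mem_nhds hw] with w' hw'
  exact DXI_zero φ h hw'

theorem DXI_supp {φ : ℍ → E} (hc : HasCompactSupport φ) (h : ℂ → ℝ) :
    HasCompactSupport (DXI_F φ h) :=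
  HasCompactSupport.intro (DXI_K hc) (fun _ hw => DXI_zero φ h hw)

theorem DXI_cd {φ : ℍ → E} (h1 : CD 1 φ) (hc : HasCompactSupport φ) {h : ℂ → ℝ}
    (hh : ContDiffOn ℝ 1 h CA1_U) : ContDiff ℝ 1 (DXI_F φ h) := by
  rw [contDiff_iff_contDiffAt]
  intro w
  by_cases hw : w ∈ UpperHalfPlane.coe '' tsupport φ
  · have hU : w ∈ CA1_U := DXI_KU φ hw
    have h2 : ContDiffAt ℝ 1 (fun w => h w • onC φ w) w :=
      (hh.smul h1).contDiffAt (CA1_open.mem_nhds hU)
    apply h2.congr_of_eventuallyEq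
    filter_upwards [CA1_open.mem_nhds hU] with w' hw'
    exact Set.indicator_of_mem (s := CA1_U) hw' (fun w => h w • onC φ w)
  · exact contDiffAt_const.congr_of_eventuallyEq (DXI_near hc h hw)

theorem DXI_fd {φ : ℍ → E} (h1 : CD 1 φ) {h : ℂ → ℝ}
    (hh : ContDiffOn ℝ 1 h CA1_U) {w : ℂ} (hw : w ∈ CA1_U) (v : ℂ) :
    fderiv ℝ (DXI_F φ h) w v = h w • fderiv ℝ (onC φ) w v + fderiv ℝ h w v • onC φ w := by
  have h2 : DXI_F φ h =ᶠ[𝓝 w] (fun w => h w • onC φ w) := by
    filter_upwards [CA1_open.mem_nhds hw] with w' hw'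
    exact Set.indicator_of_mem (s := CA1_U) hw' (fun w => h w • onC φ w)
  rw [h2.fderiv_eq]
  have h3 : DifferentiableAt ℝ (onC φ) w :=
    (h1.contDiffAt (CA1_open.mem_nhds hw)).differentiableAt (by norm_num)
  have h4 : DifferentiableAt ℝ h w :=
    (hh.contDiffAt (CA1_open.mem_nhds hw)).differentiableAt (by norm_num)
  rw [fderiv_fun_smul h4 h3]
  simp only [_root_.add_apply, _root_.smul_apply, ContinuousLinearMap.smulRight_apply]

theorem DXI_int [CompleteSpace E] {g : ℂ → E} (hg : ContDiff ℝ 1 g) (hc : HasCompactSupport g)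
    (v : ℂ) : ∫ w, fderiv ℝ g w v = 0 := by
  have hd : Differentiable ℝ g := hg.differentiable (by norm_num)
  have hcf : Continuous (fun w => fderiv ℝ g w v) :=
    (hg.continuous_fderiv (by norm_num)).clm_apply continuous_const
  have hcs : HasCompactSupport (fun w => fderiv ℝ g w v) := hc.fderiv_apply ℝ v
  have key := integral_bilinear_hasLineDerivAt_right_eq_neg_left_of_integrable
    (μ := (volume : Measure ℂ)) (f := fun _ : ℂ => (1 : ℝ)) (f' := fun _ => (0 : ℝ))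
    (g := g) (g' := fun w => fderiv ℝ g w v) (v := v)
    (B := ContinuousLinearMap.lsmul ℝ ℝ)
    (by simp) (by simpa using hcf.integrable_of_hasCompactSupport hcs)
    (by simpa using hg.continuous.integrable_of_hasCompactSupport hc)
    (fun x _ => (hasFDerivAt_const (1 : ℝ) x).hasLineDerivAt v)
    (fun x _ => (hd x).hasFDerivAt.hasLineDerivAt v)
  simpa using key

theorem DXI_set {φ : ℍ → E} (hc : HasCompactSupport φ) (h : ℂ → ℝ) (v : ℂ) :
    ∫ w in CA1_U, fderiv ℝ (DXI_F φ h) w v = ∫ w, fderiv ℝ (DXI_F φ h) w v := by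
  apply setIntegral_eq_integral_of_forall_compl_eq_zero
  intro w hw
  have h1 : w ∉ UpperHalfPlane.coe '' tsupport φ := fun h => hw (DXI_KU φ h)
  rw [(DXI_near hc h h1).fderiv_eq]
  simp

end

theorem DXI_inv : ContDiffOn ℝ 1 (fun w : ℂ => (w.im)⁻¹) CA1_U := by
  apply ContDiffOn.inv
  · exact Complex.imCLM.contDiff.contDiffOn
  · intro w hw
    exact ne_of_gt hw

theorem DXI_invd {w : ℂ} (hw : w ∈ CA1_U) (v : ℂ) :
    fderiv ℝ (fun w : ℂ => (w.im)⁻¹) w v = -((w.im ^ 2)⁻¹ * v.im) := by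
  have h1 : HasFDerivAt (fun w : ℂ => w.im) Complex.imCLM w := Complex.imCLM.hasFDerivAt
  have h2 : HasDerivAt (fun y : ℝ => y⁻¹) (-(w.im ^ 2)⁻¹) w.im := hasDerivAt_inv (ne_of_gt hw)
  have h3 := h2.comp_hasFDerivAt w h1
  have h4 : (fun w : ℂ => (w.im)⁻¹) = (fun y : ℝ => y⁻¹) ∘ (fun w : ℂ => w.im) := rfl
  rw [h4, h3.fderiv]
  simp

theorem DXI (hINV : INV_stmt) (_hCA1 : CA1_stmt) : DXI_stmt := by
  intro E _ _ _ φ h1 hc
  obtain ⟨_, _, _, _, hI⟩ := hINV
  have hcd := DXI_cd h1 hc DXI_inv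
  have hsu := DXI_supp hc (fun w : ℂ => (w.im)⁻¹)
  have hUm : MeasurableSet CA1_U := CA1_open.measurableSet
  constructor
  · rw [hI E (dX φ)]
    rw [← DXI_int hcd hsu 1, ← DXI_set hc]
    apply setIntegral_congr_fun hUm
    intro w hw
    have hw0 : w.im ≠ 0 := ne_of_gt hw
    show ((w.im ^ 2)⁻¹ : ℝ) • onC (dX φ) w =
      fderiv ℝ (DXI_F φ fun w : ℂ => (w.im)⁻¹) w 1
    rw [CA1_dXon φ hw, DXI_fd h1 DXI_inv hw, DXI_invd hw, smul_smul]
    have e1 : (w.im ^ 2)⁻¹ * w.im = (w.im)⁻¹ := by field_simp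
    rw [e1]
    simp
  · rw [hI E (dY φ), hI E φ]
    have hcd2 : ContDiffOn ℝ 1 (fun w : ℂ => (w.im ^ 2)⁻¹) CA1_U := by
      apply ContDiffOn.inv
      · exact (Complex.imCLM.contDiff.pow 2).contDiffOn
      · intro w hw
        exact pow_ne_zero 2 (ne_of_gt hw)
    have hcf : Continuous (fun w => fderiv ℝ (DXI_F φ fun w : ℂ => (w.im)⁻¹) w Complex.I) :=
      (hcd.continuous_fderiv (by norm_num)).clm_apply continuous_const
    have hcs : HasCompactSupport (fun w => fderiv ℝ (DXI_F φ fun w : ℂ => (w.im)⁻¹) w Complex.I) :=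
      hsu.fderiv_apply ℝ Complex.I
    have hint1 := hcf.integrable_of_hasCompactSupport hcs (μ := (volume : Measure ℂ))
    have hint2 := (DXI_cd h1 hc hcd2).continuous.integrable_of_hasCompactSupport
      (DXI_supp hc _) (μ := (volume : Measure ℂ))
    have h0 := DXI_int hcd hsu Complex.I
    rw [← DXI_set hc] at h0
    calc ∫ w in {w : ℂ | 0 < w.im}, ((w.im ^ 2)⁻¹ : ℝ) • (dY φ) (ofComplex w)
        = ∫ w in CA1_U, (fderiv ℝ (DXI_F φ fun w : ℂ => (w.im)⁻¹) w Complex.I +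
            DXI_F φ (fun w : ℂ => (w.im ^ 2)⁻¹) w) := by
          apply setIntegral_congr_fun hUm
          intro w hw
          have hw0 : w.im ≠ 0 := ne_of_gt hw
          show ((w.im ^ 2)⁻¹ : ℝ) • onC (dY φ) w =
            fderiv ℝ (DXI_F φ fun w : ℂ => (w.im)⁻¹) w Complex.I +
            DXI_F φ (fun w : ℂ => (w.im ^ 2)⁻¹) w
          rw [CA1_dYon φ hw, DXI_fd h1 DXI_inv hw, DXI_invd hw, smul_smul]
          have e1 : (w.im ^ 2)⁻¹ * w.im = (w.im)⁻¹ := by field_simp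
          rw [e1]
          unfold DXI_F
          rw [Set.indicator_of_mem hw]
          simp
      _ = (∫ w in CA1_U, fderiv ℝ (DXI_F φ fun w : ℂ => (w.im)⁻¹) w Complex.I) +
            ∫ w in CA1_U, DXI_F φ (fun w : ℂ => (w.im ^ 2)⁻¹) w :=
          integral_add hint1.integrableOn hint2.integrableOn
      _ = ∫ w in CA1_U, DXI_F φ (fun w : ℂ => (w.im ^ 2)⁻¹) w := by rw [h0, zero_add]
      _ = _ := by
          apply setIntegral_congr_fun hUm
          intro w hw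
          exact Set.indicator_of_mem hw _

end Pool.Agent.QU
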